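import Pool.Agent.H84.Beq

namespace Pool.Agent.Results.MP_0fb2ec_lc.CovE

open Pool.Agent.H84.BeqDefs

theorem result (b : ℕ → ℕ) (h1 : ∀ k, 1 ≤ b k) (h2 : ∀ᶠ k in Filter.atTop, 2 ≤ b k)
    (h3 : ¬ Summable fun k => 1 / (b k : ℝ)) (r : non N < cov N) : dEq b < cov E :=
  have h := Pool.Agent.H84.Beq.main h1 h2 h3
  h.2.1.trans_lt (r.trans_le h.2.2.2)

end Pool.Agent.Results.MP_0fb2ec_lc.CovE
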